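import Pool.Agent.Helper27.UnitalMinors

set_option autoImplicit false

namespace Pool.Agent.Results.MP_e444a1_co.HermitianUnital

open Pool.Agent.Helper27

/-- For every field `F` with `q^2` elements there is a tangential 1-block over `F` with no minor
isomorphic to `U_{2,|F|+1}` and no minor isomorphic to `M(K_4)`. It is found inside the Hermitian
unital of `PG(2,q^2)`. -/
theorem result (F : Type) [Field F] [Fintype F] (q : ℕ) (hq : Fintype.card F = q ^ 2) :
    ∃ (α : Type) (M : Matroid α), IsTangentialBlock F 1 M ∧
      (∀ N : Matroid α, N.IsMinor M → ¬ IsUniformLine (Fintype.card F + 1) N) ∧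
      (∀ N : Matroid α, N.IsMinor M → ¬ IsCycleMatroidK4 N) :=
  unital_counterexample F q hq

end Pool.Agent.Results.MP_e444a1_co.HermitianUnital
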